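import Mathlib

/-!
# Project BERTINI: Noether normalisation with degrees (graded Nakayama)
-/

universe u v w

namespace Pool.Agent.BE

open MvPolynomial

section DL

variable {A : Type u} [CommRing A] {σ : Type v}

/-- all monomials of `P` have degree at most `D - e` -/
def DL (P : MvPolynomial σ A) (e D : ℕ) : Prop := ∀ s ∈ P.support, s.degree + e ≤ D

lemma DL.zero (e D : ℕ) : DL (0 : MvPolynomial σ A) e D := by
  intro s hs
  simp at hs

lemma DL.add {P Q : MvPolynomial σ A} {e D : ℕ} (hP : DL P e D) (hQ : DL Q e D) :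
    DL (P + Q) e D := by
  classical
  intro s hs
  rcases Finset.mem_union.1 (support_add hs) with h | h
  · exact hP s h
  · exact hQ s h

lemma DL.sum {ι : Type*} (t : Finset ι) {P : ι → MvPolynomial σ A} {e D : ℕ}
    (h : ∀ i ∈ t, DL (P i) e D) : DL (∑ i ∈ t, P i) e D := by
  classical
  induction t using Finset.induction_on with
  | empty => exact DL.zero e D
  | insert a t ha ih =>
    rw [Finset.sum_insert ha]
    exact (h a (Finset.mem_insert_self _ _)).add
      (ih fun i hi => h i (Finset.mem_insert_of_mem hi))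

lemma DL.mul {P Q : MvPolynomial σ A} {e D e' D' : ℕ} (hP : DL P e D) (hQ : DL Q e' D') :
    DL (P * Q) (e + e') (D + D') := by
  classical
  intro s hs
  have h1 := support_mul P Q hs
  obtain ⟨a, ha, b, hb, rfl⟩ := Finset.mem_add.1 h1
  have h2 := hP a ha
  have h3 := hQ b hb
  have h4 : (a + b).degree = a.degree + b.degree := map_add _ _ _
  omega

lemma DL.neg {P : MvPolynomial σ A} {e D : ℕ} (hP : DL P e D) : DL (-P) e D := by
  intro s hs
  exact hP s (by rwa [support_neg] at hs)

lemma DL.mono {P : MvPolynomial σ A} {e D e' D' : ℕ} (hP : DL P e D) (h : D + e' ≤ D' + e) :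
    DL P e' D' := by
  intro s hs
  have := hP s hs
  omega

lemma DL.monomial (s : σ →₀ ℕ) (a : A) : DL (monomial s a) 0 s.degree := by
  classical
  intro t ht
  have := support_monomial_subset ht
  rw [Finset.mem_singleton] at this
  subst this
  omega

lemma DL.C (a : A) : DL (C a : MvPolynomial σ A) 0 0 := by
  have := DL.monomial (0 : σ →₀ ℕ) a
  simpa using this

lemma DL.X (i : σ) : DL (X i : MvPolynomial σ A) 0 1 := by
  have := DL.monomial (Finsupp.single i 1 : σ →₀ ℕ) (1 : A)
  rw [Finsupp.degree_single] at this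
  exact this

lemma DL.one : DL (1 : MvPolynomial σ A) 0 0 := by
  have := DL.C (σ := σ) (1 : A)
  rwa [map_one] at this

lemma DL.pow {P : MvPolynomial σ A} {D : ℕ} (hP : DL P 0 D) (n : ℕ) : DL (P ^ n) 0 (n * D) := by
  induction n with
  | zero =>
    rw [pow_zero, zero_mul]
    exact DL.one
  | succ n ih =>
    rw [pow_succ, add_mul, one_mul]
    exact ih.mul hP

lemma DL.prod {ι : Type*} (t : Finset ι) {P : ι → MvPolynomial σ A} {D : ι → ℕ}
    (h : ∀ i ∈ t, DL (P i) 0 (D i)) : DL (∏ i ∈ t, P i) 0 (∑ i ∈ t, D i) := by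
  classical
  induction t using Finset.induction_on with
  | empty => exact DL.one
  | insert a t ha ih =>
    rw [Finset.prod_insert ha, Finset.sum_insert ha]
    exact (h a (Finset.mem_insert_self _ _)).mul
      (ih fun i hi => h i (Finset.mem_insert_of_mem hi))

lemma DL.totalDegree_le {P : MvPolynomial σ A} {e D : ℕ} (hP : DL P e D) :
    P.totalDegree ≤ D - e := by
  rw [totalDegree, Finset.sup_le_iff]
  intro s hs
  have h1 := hP s hs
  have h2 : (s.sum fun _ e => e) = s.degree := rfl
  rw [h2]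
  omega

lemma DL.of_totalDegree {P : MvPolynomial σ A} {e D : ℕ} (hP : P.totalDegree + e ≤ D) :
    DL P e D := by
  intro s hs
  have h1 := le_totalDegree hs
  have h2 : (s.sum fun _ e => e) = s.degree := rfl
  rw [h2] at h1
  omega

lemma DL.eq_zero {P : MvPolynomial σ A} {e D : ℕ} (hP : DL P e D) (h : D < e) : P = 0 := by
  rw [← support_eq_empty, Finset.eq_empty_iff_forall_notMem]
  intro s hs
  have := hP s hs
  omega

lemma DL.map {B : Type w} [CommRing B] (φ : A →+* B) {P : MvPolynomial σ A} {e D : ℕ}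
    (hP : DL P e D) : DL (map φ P) e D := by
  intro s hs
  exact hP s (support_map_subset φ P hs)

end DL

section noe

variable {A : Type u} [CommRing A] {σ : Type v} [Fintype σ] [DecidableEq σ] {U : Type w} [Fintype U]

/-- the other variables -/
abbrev Oth (i0 i1 : σ) : Type v := {v : σ // v ≠ i0 ∧ v ≠ i1}

/-- the exponents `α v < c v` -/
abbrev Sm (i0 i1 : σ) (c : σ → ℕ) : Type v := (v : Oth i0 i1) → Fin (c v)

/-- the monomial `x ^ α` -/
noncomputable def smo (A : Type u) [CommRing A] {i0 i1 : σ} {c : σ → ℕ} (α : Sm i0 i1 c) :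
    MvPolynomial σ A :=
  ∏ v : Oth i0 i1, X (v : σ) ^ (α v : ℕ)

/-- its degree -/
def sdg {i0 i1 : σ} {c : σ → ℕ} (α : Sm i0 i1 c) : ℕ := ∑ v : Oth i0 i1, (α v : ℕ)

/-- `P` is a combination of the `x ^ α` over the polynomials in `X i0`, `X i1` and of the relations -/
def Rep (i0 i1 : σ) (c : σ → ℕ) (rel : U → MvPolynomial σ A) (e : U → ℕ) (D : ℕ)
    (P : MvPolynomial σ A) : Prop :=
  ∃ (p : Sm i0 i1 c → MvPolynomial (Fin 2) A) (b : U → MvPolynomial σ A),
    (∀ α, DL (p α) (sdg α) D) ∧ (∀ u, DL (b u) (e u) D) ∧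
    P = ∑ α, aeval ![(X i0 : MvPolynomial σ A), X i1] (p α) * smo A α + ∑ u, b u * rel u

variable {i0 i1 : σ} {c : σ → ℕ} {rel : U → MvPolynomial σ A} {e : U → ℕ}

lemma Rep.zero (D : ℕ) : Rep i0 i1 c rel e D 0 :=
  ⟨fun _ => 0, fun _ => 0, fun _ => DL.zero _ _, fun _ => DL.zero _ _, by simp⟩

lemma Rep.add {D : ℕ} {P Q : MvPolynomial σ A} (hP : Rep i0 i1 c rel e D P)
    (hQ : Rep i0 i1 c rel e D Q) : Rep i0 i1 c rel e D (P + Q) := by
  obtain ⟨p, b, h1, h2, rfl⟩ := hP
  obtain ⟨p', b', h1', h2', rfl⟩ := hQ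
  refine ⟨fun α => p α + p' α, fun u => b u + b' u, fun α => (h1 α).add (h1' α),
    fun u => (h2 u).add (h2' u), ?_⟩
  simp only [map_add, add_mul, Finset.sum_add_distrib]
  ring

lemma Rep.sum {ι : Type*} (t : Finset ι) {D : ℕ} {P : ι → MvPolynomial σ A}
    (h : ∀ i ∈ t, Rep i0 i1 c rel e D (P i)) : Rep i0 i1 c rel e D (∑ i ∈ t, P i) := by
  classical
  induction t using Finset.induction_on with
  | empty => exact Rep.zero D
  | insert a t ha ih =>
    rw [Finset.sum_insert ha]
    exact (h a (Finset.mem_insert_self _ _)).add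
      (ih fun i hi => h i (Finset.mem_insert_of_mem hi))

lemma Rep.mono {D D' : ℕ} (h : D ≤ D') {P : MvPolynomial σ A} (hP : Rep i0 i1 c rel e D P) :
    Rep i0 i1 c rel e D' P := by
  obtain ⟨p, b, h1, h2, h3⟩ := hP
  exact ⟨p, b, fun α => (h1 α).mono (by omega), fun u => (h2 u).mono (by omega), h3⟩

lemma Rep.mulX {D : ℕ} {P : MvPolynomial σ A} (hP : Rep i0 i1 c rel e D P) (j : Fin 2) :
    Rep i0 i1 c rel e (D + 1) (![(X i0 : MvPolynomial σ A), X i1] j * P) := by
  obtain ⟨p, b, h1, h2, rfl⟩ := hP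
  have hX : DL (![(X i0 : MvPolynomial σ A), X i1] j) 0 1 := by
    fin_cases j
    · exact DL.X i0
    · exact DL.X i1
  refine ⟨fun α => X j * p α, fun u => ![(X i0 : MvPolynomial σ A), X i1] j * b u, fun α => ?_,
    fun u => ?_, ?_⟩
  · exact ((DL.X j).mul (h1 α)).mono (by omega)
  · exact (hX.mul (h2 u)).mono (by omega)
  · simp only [map_mul, aeval_X, mul_add, Finset.mul_sum, mul_assoc]

lemma Rep.smulC {D : ℕ} {P : MvPolynomial σ A} (hP : Rep i0 i1 c rel e D P) (a : A) :
    Rep i0 i1 c rel e D (C a * P) := by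
  obtain ⟨p, b, h1, h2, rfl⟩ := hP
  refine ⟨fun α => C a * p α, fun u => C a * b u, fun α => ?_, fun u => ?_, ?_⟩
  · exact ((DL.C a).mul (h1 α)).mono (by omega)
  · exact ((DL.C a).mul (h2 u)).mono (by omega)
  · simp only [map_mul, algHom_C, algebraMap_eq, mul_add, Finset.mul_sum, mul_assoc]

lemma Rep.mulRel {D : ℕ} {b : MvPolynomial σ A} {u : U} (hb : DL b (e u) D) :
    Rep i0 i1 c rel e D (b * rel u) := by
  classical
  refine ⟨fun _ => 0, fun u' => if u' = u then b else 0, fun _ => DL.zero _ _, fun u' => ?_, ?_⟩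
  · by_cases h : u' = u
    · simp only [h, if_true]
      exact hb
    · simp only [h, if_false]
      exact DL.zero _ _
  · simp

lemma Rep.small {D : ℕ} (α : Sm i0 i1 c) (h : sdg α ≤ D) : Rep i0 i1 c rel e D (smo A α) := by
  classical
  refine ⟨fun β => if β = α then 1 else 0, fun _ => 0, fun β => ?_, fun _ => DL.zero _ _, ?_⟩
  · by_cases hβ : β = α
    · simp only [hβ, if_true]
      exact DL.one.mono (by omega)
    · simp only [hβ, if_false]
      exact DL.zero _ _
  · simp [apply_ite]

/-- **NOE.** -/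
theorem noe (hc : ∀ v : σ, v ≠ i0 → v ≠ i1 → ∃ (g : Fin 2 → MvPolynomial σ A)
      (g2 : MvPolynomial σ A) (b : U → MvPolynomial σ A), 1 ≤ c v ∧
      (∀ j, DL (g j) 1 (c v)) ∧ DL g2 1 (c v) ∧ (∀ u, DL (b u) (e u) (c v)) ∧
      (X v : MvPolynomial σ A) ^ c v = (∑ j, ![(X i0 : MvPolynomial σ A), X i1] j * g j) + g2 +
        ∑ u, b u * rel u) :
    ∀ (D : ℕ) (P : MvPolynomial σ A), DL P 0 D → Rep i0 i1 c rel e D P := by
  -- reduction to monomials
  have key : ∀ D : ℕ, (∀ s : σ →₀ ℕ, s.degree ≤ D → Rep i0 i1 c rel e D (monomial s (1 : A))) →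
      ∀ P : MvPolynomial σ A, DL P 0 D → Rep i0 i1 c rel e D P := by
    intro D h P hP
    rw [P.as_sum]
    refine Rep.sum _ fun s hs => ?_
    have h1 := (h s (by have := hP s hs; omega)).smulC (coeff s P)
    rwa [C_mul_monomial, mul_one] at h1
  intro D
  induction D with
  | zero =>
    refine key 0 fun s hs => ?_
    have hs0 : s = 0 := by
      rw [← Finsupp.degree_eq_zero_iff]
      omega
    rw [hs0]
    -- the small monomial `1`
    have hα : ∀ v : Oth i0 i1, 0 < c v := fun v => by
      obtain ⟨_, _, _, h, _⟩ := hc v v.2.1 v.2.2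
      omega
    have h1 := Rep.small (A := A) (rel := rel) (e := e) (D := 0)
      (fun v : Oth i0 i1 => (⟨0, hα v⟩ : Fin (c v))) (by simp [sdg])
    have h2 : smo A (fun v : Oth i0 i1 => (⟨0, hα v⟩ : Fin (c v))) = monomial 0 1 := by
      simp [smo]
    rwa [h2] at h1
  | succ D ih =>
    refine key (D + 1) fun s hs => ?_
    -- `X i0` or `X i1` divides
    have hdiv : ∀ j : Fin 2, s (![i0, i1] j) ≠ 0 →
        Rep i0 i1 c rel e (D + 1) (monomial s (1 : A)) := by
      intro j hj
      set v := ![i0, i1] j with hv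
      obtain ⟨s', hs'⟩ : ∃ s', s = Finsupp.single v 1 + s' := by
        refine ⟨s - Finsupp.single v 1, ?_⟩
        rw [add_tsub_cancel_of_le]
        rw [Finsupp.single_le_iff]
        omega
      have hd : s.degree = 1 + s'.degree := by
        rw [hs', map_add, Finsupp.degree_single]
      have h1 := (ih (monomial s' 1) ((DL.monomial s' (1 : A)).mono (by omega))).mulX j
      have h2 : ![(X i0 : MvPolynomial σ A), X i1] j * monomial s' 1 = monomial s 1 := by
        have h3 : ![(X i0 : MvPolynomial σ A), X i1] j = X v := by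
          rw [hv]
          fin_cases j <;> rfl
        rw [h3, hs', X, monomial_mul, one_mul]
      rwa [h2] at h1
    by_cases h0 : s i0 = 0
    swap
    · exact hdiv 0 h0
    by_cases h1 : s i1 = 0
    swap
    · exact hdiv 1 h1
    by_cases hbig : ∃ v, v ≠ i0 ∧ v ≠ i1 ∧ c v ≤ s v
    · obtain ⟨v, hv0, hv1, hv⟩ := hbig
      obtain ⟨g, g2, b, hc1, hg, hg2, hb, hX⟩ := hc v hv0 hv1
      obtain ⟨s', hs'⟩ : ∃ s', s = Finsupp.single v (c v) + s' := by
        refine ⟨s - Finsupp.single v (c v), ?_⟩
        rw [add_tsub_cancel_of_le]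
        rw [Finsupp.single_le_iff]
        exact hv
      have hd : s.degree = c v + s'.degree := by
        rw [hs', map_add, Finsupp.degree_single]
      have h2 : (monomial s (1 : A)) = X v ^ c v * monomial s' 1 := by
        rw [hs', X_pow_eq_monomial, monomial_mul, one_mul]
      rw [h2, hX, add_mul, add_mul, Finset.sum_mul, Finset.sum_mul]
      have hm := DL.monomial s' (1 : A)
      refine Rep.add (Rep.add (Rep.sum _ fun j _ => ?_) ?_) (Rep.sum _ fun u _ => ?_)
      · rw [mul_assoc]
        exact (ih _ (((hg j).mul hm).mono (by omega))).mulX j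
      · exact (ih _ ((hg2.mul hm).mono (by omega))).mono (by omega)
      · have h3 : b u * rel u * monomial s' 1 = (b u * monomial s' 1) * rel u := by ring
        rw [h3]
        exact Rep.mulRel (((hb u).mul hm).mono (by omega))
    · push Not at hbig
      let α : Sm i0 i1 c := fun v => ⟨s v, hbig v v.2.1 v.2.2⟩
      have h2 : monomial s (1 : A) = smo A α := by
        rw [monomial_eq, map_one, one_mul, smo, Finsupp.prod_fintype _ _ (fun i => pow_zero _),
          ← Finset.prod_filter_of_ne (p := fun v => v ≠ i0 ∧ v ≠ i1) (fun v _ hv => ?_)]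
        · exact Finset.prod_subtype _ (fun v => by simp) _
        · constructor
          · rintro rfl
            exact hv (by rw [h0, pow_zero])
          · rintro rfl
            exact hv (by rw [h1, pow_zero])
      have h3 : sdg α = s.degree := by
        rw [Finsupp.degree_eq_sum, sdg,
          ← Finset.sum_filter_of_ne (p := fun v => v ≠ i0 ∧ v ≠ i1) (fun v _ hv => ?_)]
        · exact (Finset.sum_subtype _ (fun v => by simp) _).symm
        · constructor
          · rintro rfl
            exact hv h0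
          · rintro rfl
            exact hv h1
      rw [h2]
      exact Rep.small α (by omega)

end noe

end Pool.Agent.BE
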