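import Pool.Agent.Helper37.BT.Defs
import Pool.Agent.Helper97.BE.Noe

/-!
# Project BERTINI: NOE in the format of the project
-/

universe u v w

namespace Pool.Agent.BE

open MvPolynomial

section

variable {A : Type u} [CommRing A] {σ : Type v}

lemma DL_iff {P : MvPolynomial σ A} {e D : ℕ} : DL P e D ↔ (P ≠ 0 → P.totalDegree + e ≤ D) := by
  constructor
  · intro h h0
    obtain ⟨s, hs, hs2⟩ : ∃ s ∈ P.support, s.degree = P.totalDegree := by
      have h1 : P.support.Nonempty := by rwa [Ne, ← support_eq_empty, ← Ne, ← Finset.nonempty_iff_ne_empty] at h0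
      obtain ⟨s, hs, hs2⟩ := Finset.exists_mem_eq_sup P.support h1 (fun s => s.sum fun _ e => e)
      exact ⟨s, hs, hs2.symm⟩
    rw [← hs2]
    exact h s hs
  · intro h s hs
    have h0 : P ≠ 0 := by
      rintro rfl
      simp at hs
    have h1 := le_totalDegree hs
    have h2 : (s.sum fun _ e => e) = s.degree := rfl
    rw [h2] at h1
    have h3 := h h0
    omega

lemma DL_pol {n D : ℕ} (g : BT.MonV n D → A) : DL (BT.pol g) 0 D := by
  rw [BT.pol]
  refine DL.sum _ fun s _ => ?_
  exact (DL.monomial s.1 (g s)).mono (by have := s.2; omega)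

lemma DL_pol_coeff {n D : ℕ} {P : MvPolynomial (Fin n) A} (hP : DL P 0 D) :
    BT.pol (fun s : BT.MonV n D => coeff s.1 P) = P := by
  classical
  rw [BT.pol]
  ext s
  rw [coeff_sum]
  by_cases hs : s.degree ≤ D
  · rw [Finset.sum_eq_single ⟨s, hs⟩]
    · rw [coeff_monomial, if_pos rfl]
    · intro b _ hb
      rw [coeff_monomial, if_neg]
      rintro rfl
      exact hb rfl
    · intro h
      exact absurd (Finset.mem_univ _) h
  · rw [Finset.sum_eq_zero]
    · symm
      by_contra h
      have := hP s (mem_support_iff.2 h)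
      omega
    · intro b _
      rw [coeff_monomial, if_neg]
      rintro rfl
      exact hs b.2

end

section conv

variable {K : Type u} [Field K] {N : ℕ} {U : Type} [Fintype U] {e : U → ℕ}

/-- the exponent of a small monomial -/
noncomputable def sexp {σ : Type v} [Fintype σ] [DecidableEq σ] {i0 i1 : σ} {c : σ → ℕ}
    (α : Sm i0 i1 c) : σ →₀ ℕ :=
  ∑ v : Oth i0 i1, Finsupp.single (v : σ) (α v : ℕ)

lemma sexp_degree {σ : Type v} [Fintype σ] [DecidableEq σ] {i0 i1 : σ} {c : σ → ℕ}
    (α : Sm i0 i1 c) : (sexp α).degree = sdg α := by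
  rw [sexp, map_sum, sdg]
  exact Finset.sum_congr rfl fun v _ => Finsupp.degree_single _ _

lemma smo_eq {A : Type u} [CommRing A] {σ : Type v} [Fintype σ] [DecidableEq σ] {i0 i1 : σ}
    {c : σ → ℕ} (α : Sm i0 i1 c) : smo A α = monomial (sexp α) 1 := by
  rw [sexp, monomial_sum_one, smo]
  exact Finset.prod_congr rfl fun v _ => X_pow_eq_monomial

lemma sdg_le {σ : Type v} [Fintype σ] [DecidableEq σ] {i0 i1 : σ} {c : σ → ℕ}
    (α : Sm i0 i1 c) : sdg α ≤ ∑ v, c v := by
  rw [sdg]
  calc ∑ v : Oth i0 i1, (α v : ℕ) ≤ ∑ v : Oth i0 i1, c v :=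
        Finset.sum_le_sum fun v _ => (α v).2.le
    _ = ∑ v ∈ Finset.univ.filter (fun v => v ≠ i0 ∧ v ≠ i1), c v :=
        (Finset.sum_subtype _ (fun v => by simp) _).symm
    _ ≤ ∑ v, c v := Finset.sum_le_sum_of_subset (Finset.filter_subset _ _)

/-- from `Rep` to `Noe` -/
theorem noe_of_rep {rel : ∀ u, BT.MonV (N + 2) (e u) → K} {c : Fin (N + 2) → ℕ}
    (h : ∀ (D : ℕ) (P : MvPolynomial (Fin (N + 2)) K), DL P 0 D →
      Rep 0 1 c (fun u => BT.pol (rel u)) e D P) : BT.Noe rel (∑ v, c v) := by
  classical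
  intro D P hP
  obtain ⟨p, b, h1, h2, h3⟩ := h D P (DL.of_totalDegree (by omega))
  refine ⟨fun s => ∑ α : Sm (0 : Fin (N + 2)) 1 c, if sexp α = s.1 then p α else 0, b,
    fun s => DL_iff.1 ?_, fun u => DL_iff.1 (h2 u), ?_⟩
  · refine DL.sum _ fun α _ => ?_
    by_cases hα : sexp α = s.1
    · rw [if_pos hα]
      have h4 := sexp_degree α
      exact (h1 α).mono (by rw [← h4, hα])
    · rw [if_neg hα]
      exact DL.zero _ _
  · conv_lhs => rw [h3]
    congr 1
    simp only [map_sum, Finset.sum_mul]
    rw [Finset.sum_comm]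
    refine Finset.sum_congr rfl fun α _ => ?_
    rw [Finset.sum_eq_single (⟨sexp α, by rw [sexp_degree]; exact sdg_le α⟩ :
      BT.MonV (N + 2) (∑ v, c v))]
    · rw [if_pos rfl, smo_eq]
      rfl
    · intro s _ hs
      rw [if_neg, map_zero, zero_mul]
      intro h4
      exact hs (Subtype.ext h4.symm)
    · intro h4
      exact absurd (Finset.mem_univ _) h4

end conv

section cert

variable {A : Type u} [CommRing A] {σ : Type v} {U : Type w} [Fintype U]

/-- `P` of degree at most `D` is in the ideal of `z`, `X i0`, `X i1` and the relations -/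
def Jd (i0 i1 : σ) (rel : U → MvPolynomial σ A) (e : U → ℕ) (D : ℕ) (P : MvPolynomial σ A) : Prop :=
  ∃ (g : Fin 2 → MvPolynomial σ A) (g2 : MvPolynomial σ A) (b : U → MvPolynomial σ A),
    (∀ j, DL (g j) 1 D) ∧ DL g2 1 D ∧ (∀ u, DL (b u) (e u) D) ∧
    P = (∑ j, ![(X i0 : MvPolynomial σ A), X i1] j * g j) + g2 + ∑ u, b u * rel u

variable {i0 i1 : σ} {rel : U → MvPolynomial σ A} {e : U → ℕ} {D : ℕ}

lemma Jd.zero : Jd i0 i1 rel e D 0 :=
  ⟨fun _ => 0, 0, fun _ => 0, fun _ => DL.zero _ _, DL.zero _ _, fun _ => DL.zero _ _, by simp⟩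

lemma Jd.add {P Q : MvPolynomial σ A} (hP : Jd i0 i1 rel e D P) (hQ : Jd i0 i1 rel e D Q) :
    Jd i0 i1 rel e D (P + Q) := by
  obtain ⟨g, g2, b, h1, h2, h3, rfl⟩ := hP
  obtain ⟨g', g2', b', h1', h2', h3', rfl⟩ := hQ
  refine ⟨fun j => g j + g' j, g2 + g2', fun u => b u + b' u, fun j => (h1 j).add (h1' j),
    h2.add h2', fun u => (h3 u).add (h3' u), ?_⟩
  simp only [mul_add, add_mul, Finset.sum_add_distrib]
  ring

lemma Jd.sum {ι : Type*} (t : Finset ι) {P : ι → MvPolynomial σ A}
    (h : ∀ i ∈ t, Jd i0 i1 rel e D (P i)) : Jd i0 i1 rel e D (∑ i ∈ t, P i) := by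
  classical
  induction t using Finset.induction_on with
  | empty => exact Jd.zero
  | insert a t ha ih =>
    rw [Finset.sum_insert ha]
    exact (h a (Finset.mem_insert_self _ _)).add
      (ih fun i hi => h i (Finset.mem_insert_of_mem hi))

lemma Jd.smulC {P : MvPolynomial σ A} (hP : Jd i0 i1 rel e D P) (a : A) :
    Jd i0 i1 rel e D (C a * P) := by
  obtain ⟨g, g2, b, h1, h2, h3, rfl⟩ := hP
  refine ⟨fun j => C a * g j, C a * g2, fun u => C a * b u, fun j => ?_, ?_, fun u => ?_, ?_⟩
  · exact ((DL.C a).mul (h1 j)).mono (by omega)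
  · exact ((DL.C a).mul h2).mono (by omega)
  · exact ((DL.C a).mul (h3 u)).mono (by omega)
  · simp only [mul_add, Finset.mul_sum, mul_assoc, mul_left_comm]

lemma Jd.low {P : MvPolynomial σ A} (hP : DL P 1 D) : Jd i0 i1 rel e D P :=
  ⟨fun _ => 0, P, fun _ => 0, fun _ => DL.zero _ _, hP, fun _ => DL.zero _ _, by simp⟩

lemma Jd.mulX {P : MvPolynomial σ A} (hP : DL P 1 D) (j : Fin 2) :
    Jd i0 i1 rel e D (![(X i0 : MvPolynomial σ A), X i1] j * P) := by
  classical
  refine ⟨fun j' => if j' = j then P else 0, 0, fun _ => 0, fun j' => ?_, DL.zero _ _,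
    fun _ => DL.zero _ _, ?_⟩
  · by_cases h : j' = j
    · simp only [h, if_true]
      exact hP
    · simp only [h, if_false]
      exact DL.zero _ _
  · simp

lemma Jd.mulRel {b : MvPolynomial σ A} {u : U} (hb : DL b (e u) D) :
    Jd i0 i1 rel e D (b * rel u) := by
  classical
  refine ⟨fun _ => 0, 0, fun u' => if u' = u then b else 0, fun _ => DL.zero _ _, DL.zero _ _,
    fun u' => ?_, ?_⟩
  · by_cases h : u' = u
    · simp only [h, if_true]
      exact hb
    · simp only [h, if_false]
      exact DL.zero _ _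
  · simp

/-- The monomials of large degree are in the ideal. -/
theorem Jd.big {t c : ℕ} (nv : Fin t → σ) (hnv : Function.Injective nv) {ds : Fin t → ℕ}
    (hrel : ∀ s, ∃ u, rel u = X (nv s) ^ ds s ∧ e u = ds s)
    (hcert : ∀ q : σ →₀ ℕ, q.degree = c → ∃ (P : MvPolynomial σ A)
      (B : Fin 2 → MvPolynomial σ A) (B' : Fin t → MvPolynomial σ A) (b : U → MvPolynomial σ A),
      DL P 1 c ∧ (∀ j, DL (B j) 1 c) ∧ (∀ s, DL (B' s) 1 c) ∧ (∀ u, DL (b u) (e u) c) ∧
      P + ∑ j, ![(X i0 : MvPolynomial σ A), X i1] j * B j + ∑ s, X (nv s) * B' s +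
        ∑ u, b u * rel u = monomial q 1)
    (hD : c + ∑ s, ds s ≤ D) :
    ∀ μ : σ →₀ ℕ, μ.degree = D → Jd i0 i1 rel e D (monomial μ (1 : A)) := by
  classical
  set W := ∑ s, ds s with hW
  -- a relation divides
  have hdvd : ∀ (μ : σ →₀ ℕ) (s : Fin t), μ.degree = D → ds s ≤ μ (nv s) →
      Jd i0 i1 rel e D (monomial μ (1 : A)) := by
    intro μ s hμ hs
    obtain ⟨u, hu, heu⟩ := hrel s
    obtain ⟨μ', rfl⟩ : ∃ μ', μ = μ' + Finsupp.single (nv s) (ds s) := by
      refine ⟨μ - Finsupp.single (nv s) (ds s), ?_⟩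
      rw [tsub_add_cancel_of_le]
      rw [Finsupp.single_le_iff]
      exact hs
    have h1 : (monomial (μ' + Finsupp.single (nv s) (ds s)) (1 : A)) = monomial μ' 1 * rel u := by
      rw [hu, X_pow_eq_monomial, monomial_mul, one_mul]
    rw [h1]
    refine Jd.mulRel ((DL.monomial μ' (1 : A)).mono ?_)
    rw [map_add, Finsupp.degree_single] at hμ
    omega
  have key : ∀ j : ℕ, ∀ μ : σ →₀ ℕ, μ.degree = D → W + 1 ≤ (∑ s, μ (nv s)) + j →
      Jd i0 i1 rel e D (monomial μ (1 : A)) := by
    intro j
    induction j with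
    | zero =>
      intro μ hμ hj
      by_contra hcon
      have h1 : ∀ s, μ (nv s) < ds s := by
        intro s
        by_contra h2
        exact hcon (hdvd μ s hμ (not_lt.1 h2))
      have h2 : ∑ s, μ (nv s) ≤ ∑ s, ds s := Finset.sum_le_sum fun s _ => (h1 s).le
      omega
    | succ j ih =>
      intro μ hμ hj
      by_cases hs : ∃ s, ds s ≤ μ (nv s)
      · obtain ⟨s, hs⟩ := hs
        exact hdvd μ s hμ hs
      push Not at hs
      -- `X i0` or `X i1` divides
      have hdiv : ∀ j : Fin 2, μ (![i0, i1] j) ≠ 0 → Jd i0 i1 rel e D (monomial μ (1 : A)) := by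
        intro j hj
        set v := ![i0, i1] j with hv
        obtain ⟨μ', hμ'⟩ : ∃ μ', μ = Finsupp.single v 1 + μ' := by
          refine ⟨μ - Finsupp.single v 1, ?_⟩
          rw [add_tsub_cancel_of_le]
          rw [Finsupp.single_le_iff]
          omega
        have hd : μ.degree = 1 + μ'.degree := by
          rw [hμ', map_add, Finsupp.degree_single]
        have h2 : ![(X i0 : MvPolynomial σ A), X i1] j * monomial μ' 1 = monomial μ 1 := by
          have h3 : ![(X i0 : MvPolynomial σ A), X i1] j = X v := by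
            rw [hv]
            fin_cases j <;> rfl
          rw [h3, hμ', X, monomial_mul, one_mul]
        rw [← h2]
        exact Jd.mulX ((DL.monomial μ' (1 : A)).mono (by omega)) j
      by_cases h0 : μ i0 = 0
      swap
      · exact hdiv 0 h0
      by_cases h1 : μ i1 = 0
      swap
      · exact hdiv 1 h1
      -- the part in the other variables
      have hν : ∑ s, μ (nv s) ≤ W := Finset.sum_le_sum fun s _ => (hs s).le
      set μn : σ →₀ ℕ := ∑ s, Finsupp.single (nv s) (μ (nv s)) with hμn
      have hμn1 : ∀ s, μn (nv s) = μ (nv s) := by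
        intro s
        rw [hμn, Finsupp.finsetSum_apply, Finset.sum_eq_single s]
        · rw [Finsupp.single_eq_same]
        · intro s' _ hs'
          rw [Finsupp.single_eq_of_ne]
          exact fun h => hs' (hnv h).symm
        · intro h
          exact absurd (Finset.mem_univ _) h
      have hμn2 : ∀ v, (∀ s, nv s ≠ v) → μn v = 0 := by
        intro v hv
        rw [hμn, Finsupp.finsetSum_apply, Finset.sum_eq_zero]
        intro s _
        rw [Finsupp.single_eq_of_ne]
        exact fun h => hv s h.symm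
      have hle : μn ≤ μ := by
        intro v
        by_cases hv : ∃ s, nv s = v
        · obtain ⟨s, rfl⟩ := hv
          rw [hμn1]
        · push Not at hv
          rw [hμn2 v hv]
          exact Nat.zero_le _
      have hdn : μn.degree = ∑ s, μ (nv s) := by
        rw [hμn, map_sum]
        exact Finset.sum_congr rfl fun s _ => Finsupp.degree_single _ _
      obtain ⟨μr, hμr⟩ : ∃ μr, μ = μn + μr := ⟨μ - μn, (add_tsub_cancel_of_le hle).symm⟩
      have hdr : c ≤ μr.degree := by
        have h2 : μ.degree = μn.degree + μr.degree := by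
          conv_lhs => rw [hμr, map_add]
        omega
      obtain ⟨q, hq, hqd⟩ := Finsupp.exists_le_degree_eq μr c hdr
      obtain ⟨μq, hμq⟩ : ∃ μq, μr = q + μq := ⟨μr - q, (add_tsub_cancel_of_le hq).symm⟩
      have hrn : ∀ s, μr (nv s) = 0 := by
        intro s
        have h2 := hμn1 s
        have h3 : μ (nv s) = μn (nv s) + μr (nv s) := by
          conv_lhs => rw [hμr, Finsupp.add_apply]
        omega
      have hqn : ∀ s, q (nv s) = 0 := by
        intro s
        have h2 := hq (nv s)
        have h3 := hrn s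
        omega
      set μ'' := μn + μq with hμ''
      have hsplit : μ = q + μ'' := by
        rw [hμr, hμq, hμ'']
        abel
      have hd'' : D = c + μ''.degree := by
        rw [← hμ, hsplit, map_add, hqd]
      obtain ⟨P, B, B', b, hP, hB, hB', hb, hid⟩ := hcert q hqd
      have h2 : (monomial μ (1 : A)) = monomial q 1 * monomial μ'' 1 := by
        rw [monomial_mul, one_mul, ← hsplit]
      have hm := DL.monomial μ'' (1 : A)
      rw [h2, ← hid, add_mul, add_mul, add_mul, Finset.sum_mul, Finset.sum_mul, Finset.sum_mul]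
      refine Jd.add (Jd.add (Jd.add ?_ (Jd.sum _ fun j _ => ?_)) (Jd.sum _ fun s _ => ?_))
        (Jd.sum _ fun u _ => ?_)
      · exact Jd.low ((hP.mul hm).mono (by omega))
      · rw [mul_assoc]
        exact Jd.mulX (((hB j).mul hm).mono (by omega)) j
      · -- the new nilpotent variable
        rw [mul_assoc]
        have h3 := ((hB' s).mul hm).mono (e' := 1) (D' := D) (by omega)
        have has := MvPolynomial.as_sum (B' s * monomial μ'' (1 : A))
        rw [has, Finset.mul_sum]
        refine Jd.sum _ fun τ hτ => ?_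
        have h4 := h3 τ hτ
        have h5 : (X (nv s) : MvPolynomial σ A) * monomial τ (coeff τ (B' s * monomial μ'' 1)) =
            C (coeff τ (B' s * monomial μ'' 1)) * monomial (Finsupp.single (nv s) 1 + τ) 1 := by
          rw [C_mul_monomial, X, monomial_mul, one_mul, mul_one]
        rw [h5]
        refine Jd.smulC ?_ _
        have h6 : (Finsupp.single (nv s) 1 + τ).degree = 1 + τ.degree := by
          rw [map_add, Finsupp.degree_single]
        by_cases h7 : 1 + τ.degree = D
        · refine ih _ (by rw [h6, h7]) ?_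
          -- `τ ≥ μ''`
          have h8 : ∀ s', μ (nv s') ≤ τ (nv s') := by
            intro s'
            have h9 := support_mul _ _ hτ
            obtain ⟨a, ha, b', hb', rfl⟩ := Finset.mem_add.1 h9
            have h10 := support_monomial_subset hb'
            rw [Finset.mem_singleton] at h10
            subst h10
            have h11 : μ (nv s') = q (nv s') + μ'' (nv s') := by
              conv_lhs => rw [hsplit, Finsupp.add_apply]
            have h14 : (a + μ'') (nv s') = a (nv s') + μ'' (nv s') := Finsupp.add_apply _ _ _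
            rw [h11, hqn, h14]
            omega
          have h12 : ∑ s', (Finsupp.single (nv s) 1 + τ : σ →₀ ℕ) (nv s') = 1 + ∑ s', τ (nv s') := by
            simp only [Finsupp.add_apply, Finset.sum_add_distrib]
            congr 1
            rw [Finset.sum_eq_single s]
            · rw [Finsupp.single_eq_same]
            · intro s' _ hs'
              rw [Finsupp.single_eq_of_ne]
              exact fun h => hs' (hnv h)
            · intro h
              exact absurd (Finset.mem_univ _) h
          have h13 : ∑ s', μ (nv s') ≤ ∑ s', τ (nv s') := Finset.sum_le_sum fun s' _ => h8 s'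
          rw [h12]
          omega
        · refine Jd.low ((DL.monomial _ (1 : A)).mono ?_)
          omega
      · have h3 : b u * rel u * monomial μ'' 1 = (b u * monomial μ'' 1) * rel u := by ring
        rw [h3]
        exact Jd.mulRel (((hb u).mul hm).mono (by omega))
  intro μ hμ
  exact key (W + 1) μ hμ (by omega)

end cert

end Pool.Agent.BE

namespace Pool.Agent.BT

open MvPolynomial Pool.Agent.BE

/-- base change -/
theorem Noe.map {K : Type u} {L : Type v} [Field K] [Field L] (ι : K →+* L) {N : ℕ} {U : Type}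
    [Fintype U] {e : U → ℕ} {rel : ∀ u, MonV (N + 2) (e u) → K} {c : ℕ} (h : Noe rel c) :
    Noe (fun u q => ι (rel u q)) c := by
  classical
  intro D P hP
  have hP' : DL P 0 D := DL.of_totalDegree (by omega)
  have hmono : ∀ s : Fin (N + 2) →₀ ℕ, ∃ (a : MonV (N + 2) c → MvPolynomial (Fin 2) K)
      (b : U → MvPolynomial (Fin (N + 2)) K), s.degree ≤ D →
      ((∀ q, DL (a q) q.1.degree D) ∧ (∀ u, DL (b u) (e u) D) ∧
      monomial s 1 = ∑ q, inc N (a q) * monomial q.1 1 + ∑ u, b u * pol (rel u)) := by
    intro s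
    by_cases hs : s.degree ≤ D
    · obtain ⟨a, b, h1, h2, h3⟩ := h D (monomial s (1 : K)) (by
        have := ((DL.monomial s (1 : K)).mono (e' := 0) (D' := D) (by omega)).totalDegree_le
        omega)
      exact ⟨a, b, fun _ => ⟨fun q => DL_iff.2 (h1 q), fun u => DL_iff.2 (h2 u), h3⟩⟩
    · exact ⟨fun _ => 0, fun _ => 0, fun h' => absurd h' hs⟩
  choose a b hab using hmono
  have hmap_pol : ∀ u, MvPolynomial.map ι (pol (rel u)) = pol fun q => ι (rel u q) := by
    intro u
    rw [pol, pol, map_sum]
    exact Finset.sum_congr rfl fun q _ => map_monomial _ _ _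
  have hmap_inc : ∀ Q : MvPolynomial (Fin 2) K, MvPolynomial.map ι (inc N Q) =
      inc N (MvPolynomial.map ι Q) := by
    intro Q
    induction Q using MvPolynomial.induction_on with
    | C r => simp [inc]
    | add p q hp hq => rw [map_add, map_add, map_add, map_add, hp, hq]
    | mul_X p i hp =>
      rw [map_mul, map_mul, map_mul, map_mul, hp]
      congr 1
      fin_cases i <;> simp [inc]
  refine ⟨fun q => ∑ s ∈ P.support, C (coeff s P) * MvPolynomial.map ι (a s q),
    fun u => ∑ s ∈ P.support, C (coeff s P) * MvPolynomial.map ι (b s u), fun q => DL_iff.1 ?_,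
    fun u => DL_iff.1 ?_, ?_⟩
  · refine DL.sum _ fun s hs => ?_
    have hs' : s.degree ≤ D := by
      have := hP' s hs
      omega
    exact ((DL.C _).mul (((hab s hs').1 q).map ι)).mono (by omega)
  · refine DL.sum _ fun s hs => ?_
    have hs' : s.degree ≤ D := by
      have := hP' s hs
      omega
    exact ((DL.C _).mul (((hab s hs').2.1 u).map ι)).mono (by omega)
  · have h1 : P = ∑ s ∈ P.support, C (coeff s P) * MvPolynomial.map ι (monomial s (1 : K)) := by
      conv_lhs => rw [P.as_sum]
      refine Finset.sum_congr rfl fun s _ => ?_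
      rw [map_monomial, map_one, C_mul_monomial, mul_one]
    have h2 : ∀ s ∈ P.support, C (coeff s P) * MvPolynomial.map ι (monomial s (1 : K)) =
        ∑ q, inc N (C (coeff s P) * MvPolynomial.map ι (a s q)) * monomial q.1 1 +
          ∑ u, C (coeff s P) * MvPolynomial.map ι (b s u) * pol fun q => ι (rel u q) := by
      intro s hs
      have hs' : s.degree ≤ D := by
        have := hP' s hs
        omega
      rw [(hab s hs').2.2, map_add, map_sum, map_sum, mul_add, Finset.mul_sum, Finset.mul_sum]
      congr 1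
      · refine Finset.sum_congr rfl fun q _ => ?_
        rw [map_mul, map_monomial, map_one, hmap_inc, map_mul, mul_assoc]
        congr 1
        simp [inc]
      · refine Finset.sum_congr rfl fun u _ => ?_
        rw [map_mul, hmap_pol, mul_assoc]
    conv_lhs => rw [h1]
    rw [Finset.sum_congr rfl h2, Finset.sum_add_distrib, Finset.sum_comm]
    congr 1
    · refine Finset.sum_congr rfl fun q _ => ?_
      rw [map_sum, Finset.sum_mul]
    · rw [Finset.sum_comm]
      refine Finset.sum_congr rfl fun u _ => ?_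
      rw [Finset.sum_mul]

/-- Graded Nakayama: `h_u = 0` and `z = x = y = 0`, `X (2 + s) = 0` (`s < t`) have no common zero:
all monomials of degree at most `c` are in the ideal, with the obvious degrees.  Then NOE holds for the
relations `X (2 + s) ^ (ds s)`, `h_u`. -/
theorem noe_of_cert {K : Type u} [Field K] {N t : ℕ} (ht : t ≤ N) {ds : Fin t → ℕ}
    {U : Type} [Fintype U] {e : U → ℕ} {h : ∀ u, MonV (N + 2) (e u) → K}
    {c : ℕ} (hc : 1 ≤ c)
    (hcert : ∀ q : MonV (N + 2) c, ∃ (A : MonV (N + 2) (c - 1) → K)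
      (B : Fin (t + 2) → MonV (N + 2) (c - 1) → K) (b : U → MvPolynomial (Fin (N + 2)) K),
      (∀ u, b u ≠ 0 → (b u).totalDegree + e u ≤ c) ∧
      pol A + ∑ s, pol (B s) * X (Fin.castLE (by omega) s) + ∑ u, b u * pol (h u) =
        monomial q.1 1)
    {g0 : ∀ s, MonV (N + 2) (ds s) → K}
    (hg0 : ∀ s, pol (g0 s) = X (Fin.natAdd 2 (Fin.castLE ht s) |>.cast (by omega)) ^ ds s) :
    ∃ c', Noe (relS g0 h) c' := by
  classical
  set nv : Fin t → Fin (N + 2) := fun s => (Fin.natAdd 2 (Fin.castLE ht s)).cast (by omega) with hnv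
  have hnvv : ∀ s, (nv s : ℕ) = 2 + s := fun s => rfl
  have hbig := Jd.big (A := K) (σ := Fin (N + 2)) (U := Fin t ⊕ U) (i0 := 0) (i1 := 1)
    (rel := fun u => pol (relS g0 h u)) (e := Sum.elim ds e) (D := c + ∑ s, ds s) nv
    (fun s s' hs => by
      have h1 := congrArg Fin.val hs
      rw [hnvv, hnvv] at h1
      exact Fin.ext (by omega))
    (ds := ds) (fun s => ⟨Sum.inl s, hg0 s, rfl⟩) (by
      intro q hq
      obtain ⟨P, B, b, hb, hid⟩ := hcert ⟨q, hq.le⟩
      refine ⟨pol P, fun j => pol (B (Fin.castLE (by omega) j)),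
        fun s => pol (B ((Fin.natAdd 2 s).cast (by omega))), Sum.elim (fun _ => 0) b, ?_, ?_, ?_, ?_, ?_⟩
      · exact (DL_pol P).mono (by omega)
      · intro j
        exact (DL_pol _).mono (by omega)
      · intro s
        exact (DL_pol _).mono (by omega)
      · rintro (s | u)
        · exact DL.zero _ _
        · exact DL_iff.2 (hb u)
      · rw [← hid]
        rw [Fintype.sum_sum_type]
        simp only [Sum.elim_inl, Sum.elim_inr, zero_mul, Finset.sum_const_zero, zero_add]
        have h1 : ∑ s : Fin (t + 2), pol (B s) * (X (Fin.castLE (by omega) s) : MvPolynomial (Fin (N + 2)) K) =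
            ∑ j : Fin 2, pol (B (Fin.castLE (by omega) j)) * X (![0, 1] j) +
              ∑ s : Fin t, pol (B ((Fin.natAdd 2 s).cast (by omega))) * X (nv s) := by
          rw [← (finCongr (by omega : 2 + t = t + 2)).sum_comp, Fin.sum_univ_add]
          congr 1
        rw [h1]
        congr 1
        rw [← add_assoc]
        congr 1
        · congr 1
          refine Finset.sum_congr rfl fun j _ => ?_
          fin_cases j <;> simp [mul_comm]
        · refine Finset.sum_congr rfl fun s _ => ?_
          rw [mul_comm])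
    le_rfl
  refine ⟨_, noe_of_rep (noe (A := K) (σ := Fin (N + 2)) (c := fun _ => c + ∑ s, ds s) ?_)⟩
  intro v _ _
  have h1 := hbig (Finsupp.single v (c + ∑ s, ds s)) (Finsupp.degree_single _ _)
  rw [← X_pow_eq_monomial] at h1
  obtain ⟨g, g2, b, h2, h3, h4, h5⟩ := h1
  exact ⟨g, g2, b, by omega, h2, h3, h4, h5⟩

end Pool.Agent.BT
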