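import Pool.Agent.Helper37.BT.Basic
import Pool.Agent.Helper37.BT.Gen
import Pool.Agent.Helper37.PC.Ext
import Pool.Agent.Helper37.PC.EmbE

/-!
# Project BERTINI, GEO: transport from the explicit field to `S`
-/

universe u v

namespace Pool.Agent.BT

open MvPolynomial

lemma tr_map_polX {R : Type u} {R' : Type v} [CommRing R] [CommRing R'] (φ : R →+* R') {N n : ℕ}
    (c : Fin (n + 1) → R) : map φ (polX (N := N) c) = polX fun i => φ (c i) := by
  rw [polX, map_sum]
  refine Finset.sum_congr rfl fun q _ => ?_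
  rw [map_mul, map_C, map_pow, map_X]

lemma tr_map_Cop {K : Type u} {K' : Type v} [Field K] [Field K'] (φ : K →+* K') {N n d : ℕ}
    {U : Type} [Fintype U] {e : U → ℕ} {G G' : MonV (N + 2) n → K} {f : MonV (N + 2) d → K}
    {rel : ∀ u, MonV (N + 2) (e u) → K} {M : ℕ} (h : Cop G G' f rel M) :
    Cop (fun a => φ (G a)) (fun a => φ (G' a)) (fun a => φ (f a)) (fun u a => φ (rel u a)) M := by
  intro q
  obtain ⟨A, B, H, H', h1⟩ := h q
  refine ⟨fun a => φ (A a), fun a => φ (B a), fun a => φ (H a), fun u a => φ (H' u a), ?_⟩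
  have h2 := congrArg (map φ) h1
  rw [map_add, map_add, map_mul, map_mul, map_pol, map_pol, map_pol, map_pol, map_comb,
    map_monomial, map_one] at h2
  exact h2

lemma tr_relS {R : Type u} {R' : Type v} (φ : R → R') {n t : ℕ} {ds : Fin t → ℕ} {U : Type}
    {e : U → ℕ} (g : ∀ s, MonV n (ds s) → R) (h : ∀ u, MonV n (e u) → R) :
    (fun u a => φ (relS g h u a)) = relS (fun s a => φ (g s a)) (fun u a => φ (h u a)) := by
  funext u
  cases u <;> rfl

/-- The conclusion of GEO over the explicit field. -/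
def Geo1C (κ E : Type u) [Field κ] [Field E] [Algebra κ E] (T : E) (N d p r m : ℕ) {t : ℕ}
    (ds : Fin t → ℕ) {U : Type} [Fintype U] {e : U → ℕ} (w : Fin (m + 2) → E)
    (h : ∀ u, MonV (N + 2) (e u) → E) : Prop :=
    ∃ (S₁ : Type u) (_ : Field S₁) (_ : Algebra (FFV E (N + 2) d m ds) S₁) (n M : ℕ)
      (G : Fin d → MonV (N + 2) n → algebraicClosure (FFV E (N + 2) d m ds) S₁)
      (W : MonV (N + 2) (r * n) → algebraicClosure (FFV E (N + 2) d m ds) S₁)
      (H : MonV (N + 2) M → algebraicClosure (FFV E (N + 2) d m ds) S₁)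
      (H' : Fin t ⊕ U → MonV (N + 2) M → algebraicClosure (FFV E (N + 2) d m ds) S₁)
      (D D' : Fin d → MonV (N + 2) M → algebraicClosure (FFV E (N + 2) d m ds) S₁)
      (D'' : Fin d → Fin t ⊕ U → MonV (N + 2) M → algebraicClosure (FFV E (N + 2) d m ds) S₁)
      (c : Fin d → Fin (M + 1) → algebraicClosure (FFV E (N + 2) d m ds) S₁) (τ : S₁ ≃+* S₁)
      (Q : Subfield S₁),
      n ≤ M ∧ 1 ≤ M ∧ IsAlgClosed S₁ ∧
      -- the identities
      ∏ i, pol (G i) = C (algebraMap (FFV E (N + 2) d m ds)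
        (algebraicClosure (FFV E (N + 2) d m ds) S₁) (cF (N + 2) d m ds T)) * pol W ^ p +
        comb (fun a => algebraMap (FFV E (N + 2) d m ds) (algebraicClosure (FFV E (N + 2) d m ds) S₁) (fF w a))
          (fun u a => algebraMap (FFV E (N + 2) d m ds) (algebraicClosure (FFV E (N + 2) d m ds) S₁) (relF w h u a))
          H H' ∧
      FinX (fF (ds := ds) w : MonV (N + 2) d → FFV E (N + 2) d m ds) (relF w h) M ∧
      (∀ i j, i ≠ j → Cop (G i) (G j)
        (fun a => algebraMap (FFV E (N + 2) d m ds) (algebraicClosure (FFV E (N + 2) d m ds) S₁) (fF w a))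
        (fun u a => algebraMap (FFV E (N + 2) d m ds) (algebraicClosure (FFV E (N + 2) d m ds) S₁) (relF w h u a)) M) ∧
      (∀ i, c i ≠ 0 ∧ pol (D i) * pol (G i) +
        comb (fun a => algebraMap (FFV E (N + 2) d m ds) (algebraicClosure (FFV E (N + 2) d m ds) S₁) (fF w a))
          (fun u a => algebraMap (FFV E (N + 2) d m ds) (algebraicClosure (FFV E (N + 2) d m ds) S₁) (relF w h u a))
          (D' i) (D'' i) = polX (c i)) ∧
      -- the automorphism `τ`
      (∀ y : FFV E (N + 2) d m ds, τ (algebraMap _ S₁ y) = algebraMap _ S₁ y) ∧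
      (∀ y : κ, algebraMap (FFV E (N + 2) d m ds) S₁ (cF (N + 2) d m ds (algebraMap κ E y)) ∈ Q) ∧
      (∀ i, algebraMap (FFV E (N + 2) d m ds) S₁ (xF i) ∈ Q) ∧
      (∀ y, IsAlgebraic Q y → τ y = y) ∧
      (∀ i a, τ (G i a : S₁) = G i a) ∧ (∀ a, τ (W a : S₁) = W a) ∧
      (∀ α : S₁, α ^ p = algebraMap (FFV E (N + 2) d m ds) S₁ (cF (N + 2) d m ds T) → τ α ≠ α) ∧
      -- the transpositions
      ∀ i j l, i ≠ j → j ≠ l → i ≠ l → ∃ ρ : S₁ ≃+* S₁,
        (∀ y : FFV E (N + 2) d m ds, ρ (algebraMap _ S₁ y) = algebraMap _ S₁ y) ∧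
        (∀ a, ρ (G i a : S₁) = G j a) ∧ (∀ a, ρ (G l a : S₁) = G l a) ∧
        ∀ y, τ (ρ y) = ρ (τ y)

/-- GEO over the explicit field implies GEO. -/
theorem geo_of_geo1
    (H1 : ∀ (κ E : Type u) [Field κ] [IsAlgClosed κ] [CharZero κ] [Field E] [Algebra κ E]
      (φE : E →+* HahnSeries ℤ κ) (_ : ∀ c : κ, φE (algebraMap κ E c) = HahnSeries.C c) (T : E)
      (_ : φE T = HahnSeries.single 1 1) (N d p r m t : ℕ) (_ : p.Prime) (_ : d = p * r)
      (_ : 3 ≤ d) (ds : Fin t → ℕ) (U : Type) [Fintype U] (e : U → ℕ)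
      (w : Fin (m + 2) → E) (_ : w 0 = 1) (_ : w 1 = T)
      (h : ∀ u, MonV (N + 2) (e u) → E) (g0 : ∀ s, MonV (N + 2) (ds s) → κ) (c : ℕ)
      (_ : Noe (relS (fun s q => algebraMap κ E (g0 s q)) h) c),
      Geo1C κ E T N d p r m ds w h)
    {S : Type u} [Field S] [IsAlgClosed S] [CharZero S] {κ E K0 : Subfield S}
    (hκ : ∀ y : S, IsAlgebraic κ y → y ∈ κ) {T q : S} (hT : Transcendental κ T)
    (hq : TH.SplitAt κ T q) (hE : E = Subfield.closure ((κ : Set S) ∪ {T, q}))
    {N d p r t : ℕ} (hp : p.Prime) (hd : d = p * r) (hd3 : 3 ≤ d) {ds : Fin t → ℕ} {m : ℕ}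
    {x : IxV (N + 2) d ds × Fin (m + 2) → S} (hx : AlgebraicIndependent E x)
    (hK0 : K0 = Subfield.closure ((E : Set S) ∪ Set.range x))
    {w : Fin (m + 2) → S} (hw : ∀ e, w e ∈ E) (hw0 : w 0 = 1) (hw1 : w 1 = T)
    {U : Type} [Fintype U] {e : U → ℕ} {h : ∀ u, MonV (N + 2) (e u) → E}
    {g0 : ∀ s, MonV (N + 2) (ds s) → E} (hg0 : ∀ s q, (g0 s q : S) ∈ κ) {c : ℕ}
    (hNoe : Noe (relS g0 h) c) :
    ∃ (n M : ℕ) (G : Fin d → MonV (N + 2) n → S) (W : MonV (N + 2) (r * n) → S)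
      (H : MonV (N + 2) M → S) (H' : Fin t ⊕ U → MonV (N + 2) M → S)
      (D D' : Fin d → MonV (N + 2) M → S) (D'' : Fin d → Fin t ⊕ U → MonV (N + 2) M → S)
      (c : Fin d → Fin (M + 1) → S) (τ : S ≃+* S),
      n ≤ M ∧ 1 ≤ M ∧
      -- algebraicity
      (∀ i a, IsAlgebraic K0 (G i a)) ∧ (∀ a, IsAlgebraic K0 (W a)) ∧
      (∀ a, IsAlgebraic K0 (H a)) ∧ (∀ u a, IsAlgebraic K0 (H' u a)) ∧
      (∀ i a, IsAlgebraic K0 (D i a)) ∧ (∀ i a, IsAlgebraic K0 (D' i a)) ∧
      (∀ i u a, IsAlgebraic K0 (D'' i u a)) ∧ (∀ i a, IsAlgebraic K0 (c i a)) ∧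
      -- the identities
      ∏ i, pol (G i) = C T * pol W ^ p +
        comb (mainV x w) (relS (othV x w) (fun u q => (h u q : S))) H H' ∧
      (∃ (FA FB : MonV (N + 2) M → MonV (N + 2) (M - 1) → S) (FH : MonV (N + 2) M → MonV (N + 2) M → S)
        (FH' : MonV (N + 2) M → Fin t ⊕ U → MonV (N + 2) M → S),
        (∀ q a, FA q a ∈ K0) ∧ (∀ q a, FB q a ∈ K0) ∧ (∀ q a, FH q a ∈ K0) ∧
        (∀ q u a, FH' q u a ∈ K0) ∧
        ∀ q, pol (FA q) * X 0 + pol (FB q) +
          comb (mainV x w) (relS (othV x w) (fun u q => (h u q : S))) (FH q) (FH' q) =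
            monomial q.1 1) ∧
      (∀ i j, i ≠ j → Cop (G i) (G j) (mainV x w) (relS (othV x w) (fun u q => (h u q : S))) M) ∧
      (∀ i, c i ≠ 0 ∧ pol (D i) * pol (G i) +
        comb (mainV x w) (relS (othV x w) (fun u q => (h u q : S))) (D' i) (D'' i) = polX (c i)) ∧
      -- the automorphism `τ`
      (∀ y ∈ K0, τ y = y) ∧
      (∀ y, IsAlgebraic (Subfield.closure ((κ : Set S) ∪ Set.range x)) y → τ y = y) ∧
      (∀ i a, τ (G i a) = G i a) ∧ (∀ a, τ (W a) = W a) ∧
      (∀ α : S, α ^ p = T → τ α ≠ α) ∧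
      -- the transpositions
      ∀ i j l, i ≠ j → j ≠ l → i ≠ l → ∃ ρ : S ≃+* S, (∀ y ∈ K0, ρ y = y) ∧
        (∀ a, ρ (G i a) = G j a) ∧ (∀ a, ρ (G l a) = G l a) ∧
        ∀ y, IsAlgebraic K0 y → τ (ρ y) = ρ (τ y) := by
  classical
  -- membership
  have hκE : κ ≤ E := by
    intro y hy
    rw [hE]
    exact Subfield.subset_closure (Or.inl hy)
  have hTE : T ∈ E := by
    rw [hE]
    exact Subfield.subset_closure (Or.inr (Or.inl rfl))
  -- instances
  have iκ : IsAlgClosed κ := by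
    refine IsAlgClosed.of_exists_root _ fun P hPm hPi => ?_
    have h2 : (P.map κ.subtype).degree ≠ 0 := by
      rw [Polynomial.degree_map]
      exact (Polynomial.degree_pos_of_irreducible hPi).ne'
    obtain ⟨y, hy⟩ := IsAlgClosed.exists_root (P.map κ.subtype) h2
    have h3 : IsAlgebraic κ y := ⟨P, hPm.ne_zero, by
      rw [Polynomial.IsRoot, Polynomial.eval_map] at hy
      exact hy⟩
    refine ⟨⟨y, hκ y h3⟩, ?_⟩
    apply κ.subtype.injective
    rw [← Polynomial.eval₂_at_apply, map_zero]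
    rw [Polynomial.IsRoot, Polynomial.eval_map] at hy
    exact hy
  have iκ0 : CharZero κ := inferInstance
  let iκE : Algebra κ E := (Subfield.inclusion hκE).toAlgebra
  obtain ⟨φ, hφc, hφT⟩ := PC.exists_embed hT hq hE
  have hNoe' : Noe (relS (fun s q => algebraMap κ E (⟨g0 s q, hg0 s q⟩ : κ)) h) c := by
    have h1 : (fun s q => algebraMap κ E (⟨g0 s q, hg0 s q⟩ : κ)) = g0 := by
      funext s q
      exact Subtype.ext rfl
    rw [h1]
    exact hNoe
  have hG1 := H1 κ E φ (fun c => hφc c (hκE c.2)) ⟨T, hTE⟩ (hφT hTE) N d p r m t hp hd hd3 ds U e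
    (fun e => ⟨w e, hw e⟩) (Subtype.ext hw0) (Subtype.ext hw1) h
    (fun s q => ⟨g0 s q, hg0 s q⟩) c hNoe'
  obtain ⟨S₁, iF1, iA1, n, M, G, W, H, H', D, D', D'', cc, τ₁, Q, hnM, hM1, iac, hid, hfin, hcop, hcc,
    hτF, hQκ, hQx, hQ, hτG, hτW, hτα, hρ⟩ := hG1
  set F := FFV E (N + 2) d m ds with hFdef
  -- `F → S`
  have hxinj : Function.Injective
      (aeval x : MvPolynomial (IxV (N + 2) d ds × Fin (m + 2)) E →ₐ[E] S) := hx
  let iAS : Algebra F S :=
    (IsFractionRing.lift (A := MvPolynomial (IxV (N + 2) d ds × Fin (m + 2)) E)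
      (g := (aeval x : MvPolynomial (IxV (N + 2) d ds × Fin (m + 2)) E →ₐ[E] S).toRingHom)
        hxinj).toAlgebra
  have hmap : ∀ P : MvPolynomial (IxV (N + 2) d ds × Fin (m + 2)) E,
      algebraMap F S (algebraMap (MvPolynomial (IxV (N + 2) d ds × Fin (m + 2)) E) F P) =
        aeval x P :=
    fun P => IsFractionRing.lift_algebraMap hxinj P
  have hmC : ∀ y : E, algebraMap F S (cF (N + 2) d m ds y) = y := fun y => by
    have h1 := hmap (C y)
    rw [aeval_C] at h1
    exact h1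
  have hmX : ∀ i, algebraMap F S (xF i) = x i := fun i => by
    have h1 := hmap (X i)
    rw [aeval_X] at h1
    exact h1
  have hmf : ∀ a, algebraMap F S (fF (fun e => (⟨w e, hw e⟩ : E)) a) = mainV x w a := by
    intro a
    rw [fF, mainV, map_sum, mainV]
    refine Finset.sum_congr rfl fun e _ => ?_
    rw [map_mul, hmX, hmC]
  have hmr : (fun u a => algebraMap F S (relF (fun e => (⟨w e, hw e⟩ : E)) h u a)) =
      relS (othV x w) (fun u q => (h u q : S)) := by
    funext u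
    cases u with
    | inl s =>
      funext a
      change algebraMap F S (othV xF (fun e => cF (N + 2) d m ds (⟨w e, hw e⟩ : E)) s a) =
        othV x w s a
      simp only [othV, map_sum, map_mul, hmX, hmC]
    | inr u =>
      funext a
      exact hmC _
  -- `K0` is the image
  have hK1 : ∀ y ∈ K0, ∃ f : F, algebraMap F S f = y := by
    have h1 : K0 ≤ (algebraMap F S).fieldRange := by
      rw [hK0, Subfield.closure_le]
      rintro y (hy | ⟨i, rfl⟩)
      · exact ⟨_, hmC ⟨y, hy⟩⟩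
      · exact ⟨_, hmX i⟩
    intro y hy
    exact h1 hy
  have hK2 : ∀ f : F, algebraMap F S f ∈ K0 := by
    have h1 : ∀ P : MvPolynomial (IxV (N + 2) d ds × Fin (m + 2)) E, aeval x P ∈ K0 := by
      intro P
      induction P using MvPolynomial.induction_on with
      | C y =>
        rw [aeval_C, hK0]
        exact Subfield.subset_closure (Or.inl y.2)
      | add P1 P2 h1 h2 =>
        rw [map_add]
        exact add_mem h1 h2
      | mul_X P i h =>
        rw [map_mul, aeval_X]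
        refine mul_mem h ?_
        rw [hK0]
        exact Subfield.subset_closure (Or.inr ⟨i, rfl⟩)
    intro f
    obtain ⟨P, R, hR, rfl⟩ := IsFractionRing.div_surjective
      (A := MvPolynomial (IxV (N + 2) d ds × Fin (m + 2)) E) f
    rw [map_div₀, hmap, hmap]
    exact div_mem (h1 _) (h1 _)
  have hK3 : ∀ y : S, IsAlgebraic F y → IsAlgebraic K0 y := by
    rintro y ⟨P, hP0, hP⟩
    let j : F →+* K0 := (algebraMap F S).codRestrict K0 hK2
    refine ⟨P.map j, (Polynomial.map_ne_zero_iff j.injective).2 hP0, ?_⟩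
    rw [Polynomial.aeval_def, Polynomial.eval₂_map]
    exact hP
  have hK4 : ∀ y : S, IsAlgebraic K0 y → IsAlgebraic F y := by
    rintro y ⟨P, hP0, hP⟩
    have h1 : ∀ z : K0, ∃ f : F, algebraMap F S f = z := fun z => hK1 z z.2
    have h2 : P.map K0.subtype ∈ Polynomial.lifts (algebraMap F S) := by
      rw [Polynomial.lifts_iff_coeff_lifts]
      intro n
      rw [Polynomial.coeff_map]
      exact h1 _
    obtain ⟨P', hP'⟩ := (Polynomial.mem_lifts _).1 h2
    refine ⟨P', ?_, ?_⟩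
    · rintro rfl
      rw [Polynomial.map_zero] at hP'
      exact hP0 ((Polynomial.map_eq_zero_iff K0.subtype.injective).1 hP'.symm)
    · rw [Polynomial.aeval_def, ← Polynomial.eval_map, hP', Polynomial.eval_map]
      exact hP
  -- transport
  obtain ⟨e', he⟩ := PC.exists_transport (F := F) (S := S) (S₁ := S₁)
  let hh0 : algebraicClosure F S₁ →+* S :=
    (algebraMap (algebraicClosure F S) S).comp (e' : _ →+* _)
  have hh : ∀ z, hh0 z = (e' z : S) := fun _ => rfl
  have hhF : ∀ f : F, hh0 (algebraMap F (algebraicClosure F S₁) f) = algebraMap F S f := by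
    intro f
    rw [hh, e'.commutes]
    rfl
  have hhalg : ∀ z, IsAlgebraic K0 (hh0 z) := fun z =>
    hK3 _ (mem_algebraicClosure_iff.1 (e' z).2)
  have hsurj : ∀ y : S, IsAlgebraic K0 y → ∃ z, hh0 z = y := by
    intro y hy
    refine ⟨e'.symm ⟨y, mem_algebraicClosure_iff.2 (hK4 y hy)⟩, ?_⟩
    rw [hh, e'.apply_symm_apply]
  have hstab : ∀ σ : S₁ ≃+* S₁, (∀ c : F, σ (algebraMap _ S₁ c) = algebraMap _ S₁ c) →
      ∀ z : algebraicClosure F S₁, ∃ z' : algebraicClosure F S₁, σ (z : S₁) = z' := by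
    intro σ hσ z
    let σ' : S₁ ≃ₐ[F] S₁ := AlgEquiv.ofRingEquiv (f := σ) hσ
    refine ⟨⟨σ' z, ?_⟩, rfl⟩
    rw [mem_algebraicClosure_iff]
    exact (mem_algebraicClosure_iff.1 z.2).algHom (σ' : S₁ →ₐ[F] S₁)
  have hmain : (fun a => hh0 (algebraMap F (algebraicClosure F S₁)
      (fF (fun e => (⟨w e, hw e⟩ : E)) a))) = mainV x w := by
    funext a
    rw [hhF, hmf]
  have hrels : (fun u a => hh0 (algebraMap F (algebraicClosure F S₁)
      (relF (fun e => (⟨w e, hw e⟩ : E)) h u a))) =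
        relS (othV x w) (fun u q => (h u q : S)) := by
    rw [← hmr]
    funext u a
    exact hhF _
  obtain ⟨τ, hτ0, hτ1⟩ := he τ₁ hτF
  -- the identities
  refine ⟨n, M, fun i a => hh0 (G i a), fun a => hh0 (W a), fun a => hh0 (H a),
    fun u a => hh0 (H' u a), fun i a => hh0 (D i a), fun i a => hh0 (D' i a),
    fun i u a => hh0 (D'' i u a), fun i a => hh0 (cc i a), τ, hnM, hM1, fun i a => hhalg _,
    fun a => hhalg _, fun a => hhalg _, fun u a => hhalg _, fun i a => hhalg _, fun i a => hhalg _,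
    fun i u a => hhalg _, fun i a => hhalg _, ?_, ?_, ?_, ?_, ?_, ?_, ?_, ?_, ?_, ?_⟩
  · have h1 := congrArg (map hh0) hid
    rw [map_prod, map_add, map_mul, map_pow, map_C, map_pol, map_comb, hhF, hmC, hmain,
      hrels] at h1
    simp only [map_pol] at h1
    exact h1
  · choose FA FB FH FH' hF using hfin
    refine ⟨fun q a => algebraMap F S (FA q a), fun q a => algebraMap F S (FB q a),
      fun q a => algebraMap F S (FH q a), fun q u a => algebraMap F S (FH' q u a),
      fun q a => hK2 _, fun q a => hK2 _, fun q a => hK2 _, fun q u a => hK2 _, fun q => ?_⟩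
    have h1 := congrArg (map (algebraMap F S)) (hF q)
    rw [map_add, map_add, map_mul, map_X, map_pol, map_pol, map_comb, map_monomial, map_one,
      hmr] at h1
    have h2 : (fun a => algebraMap F S (fF (fun e => (⟨w e, hw e⟩ : E)) a)) = mainV x w := by
      funext a
      exact hmf a
    rw [h2] at h1
    exact h1
  · intro i j hij
    have h1 := tr_map_Cop hh0 (hcop i j hij)
    rw [hmain, hrels] at h1
    exact h1
  · intro i
    obtain ⟨h1, h2⟩ := hcc i
    refine ⟨?_, ?_⟩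
    · intro h3
      apply h1
      funext a
      have h4 := congrFun h3 a
      exact (map_eq_zero hh0).1 h4
    · have h3 := congrArg (map hh0) h2
      rw [map_add, map_mul, map_pol, map_pol, map_comb, tr_map_polX, hmain, hrels] at h3
      exact h3
  · intro y hy
    obtain ⟨f, rfl⟩ := hK1 y hy
    exact hτ0 f
  · -- elements algebraic over `κ(x)`
    generalize hR0 : Subfield.closure ((κ : Set S) ∪ Set.range x) = R0
    rintro y ⟨P, hP0, hP⟩
    let QF : Subfield F := Q.comap (algebraMap F S₁)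
    let g : QF →+* S := (algebraMap F S).comp QF.subtype
    have h1 : R0 ≤ g.fieldRange := by
      rw [← hR0, Subfield.closure_le]
      rintro y (hy | ⟨i, rfl⟩)
      · exact ⟨⟨_, hQκ ⟨y, hy⟩⟩, hmC _⟩
      · exact ⟨⟨_, hQx i⟩, hmX i⟩
    have h2 : P.map R0.subtype ∈ Polynomial.lifts g := by
      rw [Polynomial.lifts_iff_coeff_lifts]
      intro n
      rw [Polynomial.coeff_map]
      exact h1 (P.coeff n).2
    obtain ⟨P', hP'⟩ := (Polynomial.mem_lifts _).1 h2
    have hP'0 : P' ≠ 0 := by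
      rintro rfl
      rw [Polynomial.map_zero] at hP'
      exact hP0 ((Polynomial.map_eq_zero_iff R0.subtype.injective).1 hP'.symm)
    have hP'1 : P'.eval₂ g y = 0 := by
      rw [← Polynomial.eval_map, hP', Polynomial.eval_map]
      exact hP
    have hyF : IsAlgebraic F y := by
      refine ⟨P'.map QF.subtype, (Polynomial.map_ne_zero_iff QF.subtype.injective).2 hP'0, ?_⟩
      rw [Polynomial.aeval_def, Polynomial.eval₂_map]
      exact hP'1
    obtain ⟨z, rfl⟩ := hsurj y (hK3 y hyF)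
    have h3 : P'.eval₂ ((algebraMap F (algebraicClosure F S₁)).comp QF.subtype) z = 0 := by
      apply hh0.injective
      rw [Polynomial.hom_eval₂, map_zero]
      have h4 : hh0.comp ((algebraMap F (algebraicClosure F S₁)).comp QF.subtype) = g := by
        ext f
        exact hhF _
      rw [h4]
      exact hP'1
    have h5 : IsAlgebraic Q (z : S₁) := by
      let j : QF →+* Q := ((algebraMap F S₁).comp QF.subtype).codRestrict Q fun f => f.2
      refine ⟨P'.map j, (Polynomial.map_ne_zero_iff j.injective).2 hP'0, ?_⟩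
      rw [Polynomial.aeval_def, Polynomial.eval₂_map]
      have h6 := congrArg (algebraMap (algebraicClosure F S₁) S₁) h3
      rw [Polynomial.hom_eval₂, map_zero] at h6
      exact h6
    exact hτ1 z z (hQ _ h5)
  · intro i a
    exact hτ1 _ _ (hτG i a)
  · intro a
    exact hτ1 _ _ (hτW a)
  · intro α hα hτ'
    have h1 : IsAlgebraic K0 α := by
      have h2 : IsAlgebraic K0 T := by
        have h3 : T ∈ K0 := by
          rw [hK0]
          exact Subfield.subset_closure (Or.inl hTE)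
        exact isAlgebraic_algebraMap (A := S) (⟨T, h3⟩ : K0)
      rw [← hα] at h2
      exact h2.of_pow hp.pos
    obtain ⟨z, rfl⟩ := hsurj α h1
    obtain ⟨z', hz'⟩ := hstab τ₁ hτF z
    have h2 : hh0 z ^ p = hh0 (algebraMap F (algebraicClosure F S₁)
        (cF (N + 2) d m ds ⟨T, hTE⟩)) := by
      rw [hα, hhF, hmC]
    rw [← map_pow] at h2
    have h3 := hh0.injective h2
    have h4 := congrArg (algebraMap (algebraicClosure F S₁) S₁) h3
    rw [map_pow] at h4
    refine hτα (z : S₁) h4 ?_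
    have h5 := hτ1 z z' hz'
    have h6 : (e' z : S) = e' z' := hτ'.symm.trans h5
    have h7 : z = z' := e'.injective (Subtype.ext h6)
    rw [hz', ← h7]
  · intro i j l hij hjl hil
    obtain ⟨ρ₁, hρF, hρ1, hρ2, hρ3⟩ := hρ i j l hij hjl hil
    obtain ⟨ρ, hρ0, hρe⟩ := he ρ₁ hρF
    refine ⟨ρ, ?_, fun a => hρe _ _ (hρ1 a), fun a => hρe _ _ (hρ2 a), ?_⟩
    · intro y hy
      obtain ⟨f, rfl⟩ := hK1 y hy
      exact hρ0 f
    · intro y hy
      obtain ⟨z, rfl⟩ := hsurj y hy
      obtain ⟨z1, hz1⟩ := hstab ρ₁ hρF z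
      obtain ⟨z2, hz2⟩ := hstab τ₁ hτF z1
      obtain ⟨z3, hz3⟩ := hstab τ₁ hτF z
      obtain ⟨z4, hz4⟩ := hstab ρ₁ hρF z3
      have h1 : ρ (hh0 z) = hh0 z1 := hρe _ _ hz1
      have h2 : τ (hh0 z1) = hh0 z2 := hτ1 _ _ hz2
      have h3 : τ (hh0 z) = hh0 z3 := hτ1 _ _ hz3
      have h4 : ρ (hh0 z3) = hh0 z4 := hρe _ _ hz4
      rw [h1, h2, h3, h4]
      congr 1
      apply Subtype.ext
      rw [← hz2, ← hz1, hρ3, hz3, hz4]

end Pool.Agent.BT
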