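import Pool.Agent.Helper97.BE.Noe

/-!
# Project BERTINI: the hypothesis of NOE from the absence of common zeros
-/

universe u v w t

namespace Pool.Agent.BE

open MvPolynomial

section hom

variable {k : Type u} [CommRing k] {ι : Type v}

lemma comp_mul_hom {F : MvPolynomial ι k} {f : ℕ} (hF : F.IsHomogeneous f) (B : MvPolynomial ι k)
    (n : ℕ) : homogeneousComponent n (B * F) =
      if f ≤ n then homogeneousComponent (n - f) B * F else 0 := by
  conv_lhs => rw [← sum_homogeneousComponent B, Finset.sum_mul, map_sum]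
  have h1 : ∀ j, homogeneousComponent n (homogeneousComponent j B * F) =
      if j + f = n then homogeneousComponent j B * F else 0 := by
    intro j
    have h2 : (homogeneousComponent j B * F).IsHomogeneous (j + f) :=
      (homogeneousComponent_isHomogeneous j B).mul hF
    have h3 := homogeneousComponent_of_mem (n := j + f) (m := n) (p := homogeneousComponent j B * F)
      ((mem_homogeneousSubmodule _ _).2 h2)
    rw [h3]
    by_cases h : j + f = n
    · rw [if_pos h.symm, if_pos h]
    · rw [if_neg (fun h' => h h'.symm), if_neg h]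
  simp only [h1]
  by_cases hf : f ≤ n
  · rw [if_pos hf]
    by_cases h4 : n - f < B.totalDegree + 1
    · rw [Finset.sum_eq_single_of_mem (n - f) (Finset.mem_range.2 h4)]
      · rw [if_pos (by omega)]
      · intro j _ hj
        rw [if_neg (by omega)]
    · rw [Finset.sum_eq_zero]
      · rw [homogeneousComponent_eq_zero _ _ (by omega), zero_mul]
      · intro j hj
        rw [Finset.mem_range] at hj
        rw [if_neg (by omega)]
  · rw [if_neg hf, Finset.sum_eq_zero]
    intro j _
    rw [if_neg (by omega)]

end hom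

section null

variable {k : Type u} [Field k] {K : Type t} [Field K] [Algebra k K] [IsAlgClosed K]
  {ι : Type v} [Finite ι] {W : Type w} [Fintype W]

/-- Forms without common zero: powers of the variables are combinations. -/
theorem hom_rep {F : W → MvPolynomial ι k} {f : W → ℕ} (hF : ∀ j, (F j).IsHomogeneous (f j))
    (h0 : ∀ x : ι → K, (∀ j, aeval x (F j) = 0) → x = 0) (v : ι) :
    ∃ (c : ℕ) (B : W → MvPolynomial ι k), 1 ≤ c ∧ (X v : MvPolynomial ι k) ^ c = ∑ j, B j * F j ∧
      (∀ j, (B j).IsHomogeneous (c - f j)) ∧ ∀ j, c < f j → B j = 0 := by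
  classical
  set I : Ideal (MvPolynomial ι k) := Ideal.span (Set.range F) with hI
  have h1 : (X v : MvPolynomial ι k) ∈ vanishingIdeal k (zeroLocus K I) := by
    rw [mem_vanishingIdeal_iff]
    intro x hx
    rw [mem_zeroLocus_iff] at hx
    have h2 : x = 0 := h0 x fun j => hx (F j) (Ideal.subset_span ⟨j, rfl⟩)
    rw [h2, aeval_X, Pi.zero_apply]
  rw [vanishingIdeal_zeroLocus_eq_radical] at h1
  obtain ⟨n, hn⟩ := h1
  have h2 : (X v : MvPolynomial ι k) ^ (n + 1) ∈ I := by
    rw [pow_succ]
    exact Ideal.mul_mem_right _ _ hn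
  rw [hI, Ideal.mem_span_range_iff_exists_fun] at h2
  obtain ⟨B, hB⟩ := h2
  refine ⟨n + 1, fun j => if f j ≤ n + 1 then homogeneousComponent (n + 1 - f j) (B j) else 0,
    by omega, ?_, fun j => ?_, fun j hj => ?_⟩
  · have h3 : homogeneousComponent (n + 1) ((X v : MvPolynomial ι k) ^ (n + 1)) =
        X v ^ (n + 1) := by
      have h4 : ((X v : MvPolynomial ι k) ^ (n + 1)).IsHomogeneous (n + 1) := by
        have := (isHomogeneous_X k v).pow (n + 1)
        rwa [one_mul] at this
      have h5 := homogeneousComponent_of_mem (n := n + 1) (m := n + 1)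
        (p := (X v : MvPolynomial ι k) ^ (n + 1)) ((mem_homogeneousSubmodule _ _).2 h4)
      rw [h5, if_pos rfl]
    rw [← h3, ← hB, map_sum]
    refine Finset.sum_congr rfl fun j _ => ?_
    rw [comp_mul_hom (hF j)]
    by_cases h : f j ≤ n + 1
    · simp only [h, if_true]
    · simp only [h, if_false, zero_mul]
  · by_cases h : f j ≤ n + 1
    · simp only [h, if_true]
      exact homogeneousComponent_isHomogeneous _ _
    · simp only [h, if_false]
      exact isHomogeneous_zero _ _ _
  · simp only [not_le.2 hj, if_false]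

end null

section deh

variable {A : Type u} [CommRing A] {σ : Type v}

/-- dehomogenisation: `X none = 1` -/
noncomputable def deh : MvPolynomial (Option σ) A →ₐ[A] MvPolynomial σ A :=
  aeval fun o => o.elim 1 X

lemma deh_none : deh (X none : MvPolynomial (Option σ) A) = 1 := by
  rw [deh, aeval_X]
  rfl

lemma deh_some (v : σ) : deh (X (some v) : MvPolynomial (Option σ) A) = X v := by
  rw [deh, aeval_X]
  rfl

lemma deh_DL {F : MvPolynomial (Option σ) A} {n : ℕ} (hF : F.IsHomogeneous n) :
    DL (deh F) 0 n := by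
  classical
  rw [F.as_sum, map_sum]
  refine DL.sum _ fun s hs => ?_
  have h1 : s.degree = n := by
    have := hF (mem_support_iff.1 hs)
    rwa [Pi.one_def, ← Finsupp.degree_eq_weight_one] at this
  rw [deh, aeval_monomial, algebraMap_eq]
  have h2 : DL (s.prod fun o n => (o.elim 1 X : MvPolynomial σ A) ^ n) 0 s.degree := by
    rw [Finsupp.prod, Finsupp.degree]
    refine DL.prod _ fun o _ => ?_
    cases o with
    | none =>
      simp only [Option.elim_none, one_pow]
      exact DL.one.mono (by omega)
    | some v =>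
      simp only [Option.elim_some]
      exact ((DL.X v).pow (s (some v))).mono (by omega)
  rw [← h1]
  exact ((DL.C _).mul h2).mono (by omega)

end deh

section main

variable {k : Type u} [Field k] {K : Type t} [Field K] [Algebra k K] [IsAlgClosed K]
  {σ : Type v} [Finite σ] {U : Type w} [Fintype U]

/-- The hypothesis of `noe`, for forms which have no common zero with `X none`, `X (some i0)`,
`X (some i1)`. -/
theorem exists_noe_hyp {h : U → MvPolynomial (Option σ) k} {e : U → ℕ}
    (hh : ∀ u, (h u).IsHomogeneous (e u)) {i0 i1 : σ}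
    (h0 : ∀ x : Option σ → K, x none = 0 → x (some i0) = 0 → x (some i1) = 0 →
      (∀ u, aeval x (h u) = 0) → x = 0) :
    ∃ c : σ → ℕ, ∀ v : σ, ∃ (g : Fin 2 → MvPolynomial σ k)
      (g2 : MvPolynomial σ k) (b : U → MvPolynomial σ k), 1 ≤ c v ∧
      (∀ j, DL (g j) 1 (c v)) ∧ DL g2 1 (c v) ∧ (∀ u, DL (b u) (e u) (c v)) ∧
      (X v : MvPolynomial σ k) ^ c v = (∑ j, ![(X i0 : MvPolynomial σ k), X i1] j * g j) + g2 +
        ∑ u, b u * deh (h u) := by
  classical
  let F : U ⊕ Fin 3 → MvPolynomial (Option σ) k :=
    Sum.elim h ![X none, X (some i0), X (some i1)]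
  let f : U ⊕ Fin 3 → ℕ := Sum.elim e fun _ => 1
  have hF : ∀ j, (F j).IsHomogeneous (f j) := by
    rintro (u | j)
    · exact hh u
    · fin_cases j
      · exact isHomogeneous_X k _
      · exact isHomogeneous_X k _
      · exact isHomogeneous_X k _
  have h1 : ∀ x : Option σ → K, (∀ j, aeval x (F j) = 0) → x = 0 := by
    intro x hx
    refine h0 x ?_ ?_ ?_ fun u => hx (Sum.inl u)
    · have := hx (Sum.inr 0)
      simpa [F] using this
    · have := hx (Sum.inr 1)
      simpa [F] using this
    · have := hx (Sum.inr 2)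
      simpa [F] using this
  choose c B hc hX hB hB0 using fun v : σ => hom_rep (K := K) hF h1 (some v)
  refine ⟨c, fun v => ⟨![deh (B v (Sum.inr 1)), deh (B v (Sum.inr 2))], deh (B v (Sum.inr 0)),
    fun u => deh (B v (Sum.inl u)), hc v, ?_, ?_, ?_, ?_⟩⟩
  · intro j
    have hcv := hc v
    fin_cases j
    · exact (deh_DL (hB v (Sum.inr 1))).mono (by simp only [f, Sum.elim_inr]; omega)
    · exact (deh_DL (hB v (Sum.inr 2))).mono (by simp only [f, Sum.elim_inr]; omega)
  · have hcv := hc v
    exact (deh_DL (hB v (Sum.inr 0))).mono (by simp only [f, Sum.elim_inr]; omega)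
  · intro u
    by_cases h : c v < e u
    · have h2 := hB0 v (Sum.inl u) h
      simp only [h2, map_zero]
      exact DL.zero _ _
    · exact (deh_DL (hB v (Sum.inl u))).mono (by simp only [f, Sum.elim_inl]; omega)
  · have h2 := congrArg deh (hX v)
    rw [map_pow, deh_some, map_sum, Fintype.sum_sum_type, Fin.sum_univ_three] at h2
    rw [h2, Fin.sum_univ_two]
    simp only [map_mul, F, Sum.elim_inl, Sum.elim_inr, Matrix.cons_val_zero, Matrix.cons_val_one,
      Matrix.cons_val, deh_none, deh_some]
    ring

end main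

end Pool.Agent.BE
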